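import Mathlib

/-!
# Functional relations in partial orders which depend only on the order

A relation on a partial order which is the graph of a partial function and takes every value
infinitely often is not constant on the pairs `a < b`, constant on the pairs `a > b` and symmetric
on the incomparable pairs, even outside of a finite set.
-/

set_option autoImplicit false

namespace Pool.Agent.QFree

/-- Outside of the set `F` the relation `T` is constant on the pairs `a < b`, constant on the pairs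
`a > b` and symmetric on the incomparable pairs. -/
structure Tame {α : Type*} [Preorder α] (F : Set α) (T : α → α → Prop) : Prop where
  lt : ∀ a b a' b', a ∉ F → b ∉ F → a' ∉ F → b' ∉ F → a < b → a' < b' → T a b → T a' b'
  gt : ∀ a b a' b', a ∉ F → b ∉ F → a' ∉ F → b' ∉ F → b < a → b' < a' → T a b → T a' b'
  symm : ∀ a b, a ∉ F → b ∉ F → ¬ a ≤ b → ¬ b ≤ a → T a b → T b a

theorem not_tame {α : Type*} [PartialOrder α] [Nonempty α] {F : Set α} (hF : F.Finite)
    {T : α → α → Prop} (hfun : ∀ a b b', T a b → T a b' → b = b')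
    (hinf : ∀ b, {a | T a b}.Infinite) : ¬ Tame F T := by
  intro hT
  -- a point outside of `F`
  have hα : (Set.univ : Set α).Infinite := by
    obtain ⟨b⟩ := ‹Nonempty α›
    exact (hinf b).mono (Set.subset_univ _)
  obtain ⟨b0, -, hb0⟩ := hα.exists_notMem_finite hF
  -- the comparable preimages of a point outside of `F`
  have key : ∀ b, b ∉ F → {a | T a b ∧ a ∉ F ∧ (a < b ∨ b < a)}.Infinite := by
    intro b hb
    have h1 : ({a | T a b} \ (F ∪ {b})).Infinite := (hinf b).sdiff (hF.union (Set.finite_singleton b))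
    have h2 : {a | T a b ∧ a ∉ F ∧ ¬ a ≤ b ∧ ¬ b ≤ a}.Subsingleton := by
      intro a ha a' ha'
      exact hfun b a a' (hT.symm a b ha.2.1 hb ha.2.2.1 ha.2.2.2 ha.1)
        (hT.symm a' b ha'.2.1 hb ha'.2.2.1 ha'.2.2.2 ha'.1)
    refine (h1.sdiff h2.finite).mono ?_
    rintro a ⟨⟨h3, h4⟩, h5⟩
    simp only [Set.mem_union, Set.mem_singleton_iff, not_or] at h4
    simp only [Set.mem_ofPred_eq, not_and] at h3 h5
    refine ⟨h3, h4.1, ?_⟩
    by_contra hcon
    push Not at hcon
    refine h5 h3 h4.1 (fun h => hcon.1 (lt_of_le_of_ne h h4.2)) (fun h => hcon.2 (lt_of_le_of_ne h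
      (Ne.symm h4.2)))
  by_cases hL : ∃ a b, a ∉ F ∧ b ∉ F ∧ a < b ∧ T a b
  · obtain ⟨a1, b1, h1, h2, h3, h4⟩ := hL
    have L : ∀ a b, a ∉ F → b ∉ F → a < b → T a b := fun a b ha hb hab =>
      hT.lt a1 b1 a b h1 h2 ha hb h3 hab h4
    by_cases hG : ∃ a b, a ∉ F ∧ b ∉ F ∧ b < a ∧ T a b
    · obtain ⟨a2, b2, g1, g2, g3, g4⟩ := hG
      have G : ∀ a b, a ∉ F → b ∉ F → b < a → T a b := fun a b ha hb hab =>
        hT.gt a2 b2 a b g1 g2 ha hb g3 hab g4
      refine key b0 hb0 (Set.Subsingleton.finite ?_)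
      have all : ∀ a, T a b0 ∧ a ∉ F ∧ (a < b0 ∨ b0 < a) → T b0 a := by
        rintro a ⟨-, ha, h | h⟩
        · exact G b0 a hb0 ha h
        · exact L b0 a hb0 ha h
      intro a ha a' ha'
      exact hfun b0 a a' (all a ha) (all a' ha')
    · -- only pairs `a < b`
      have step : ∀ b, b ∉ F → ∃ a, a ∉ F ∧ a < b := by
        intro b hb
        obtain ⟨a, ha1, ha2, ha3⟩ := (key b hb).nonempty
        rcases ha3 with h | h
        · exact ⟨a, ha2, h⟩
        · exact absurd ⟨a, b, ha2, hb, h, ha1⟩ hG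
      obtain ⟨a, ha, hab⟩ := step b0 hb0
      obtain ⟨c, hc, hca⟩ := step a ha
      exact hab.ne (hfun c a b0 (L c a hc ha hca) (L c b0 hc hb0 (hca.trans hab)))
  · have step : ∀ b, b ∉ F → ∃ a, a ∉ F ∧ b < a ∧ T a b := by
      intro b hb
      obtain ⟨a, ha1, ha2, ha3⟩ := (key b hb).nonempty
      rcases ha3 with h | h
      · exact absurd ⟨a, b, ha2, hb, h, ha1⟩ hL
      · exact ⟨a, ha2, h, ha1⟩
    obtain ⟨a, ha, hab, hT1⟩ := step b0 hb0
    obtain ⟨c, hc, hca, hT2⟩ := step a ha
    have h3 : T c b0 := hT.gt a b0 c b0 ha hb0 hc hb0 hab (hab.trans hca) hT1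
    exact hab.ne (hfun c b0 a h3 hT2)

end Pool.Agent.QFree
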