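import Mathlib

/-!
# The padding lemma, and quantifier-free formulas of the language of orders
-/

set_option autoImplicit false

namespace Pool.Agent.QFree

open FirstOrder

/-- **Padding**: every partial recursive function has infinitely many codes. -/
theorem infinite_codes (n : ℕ) : {m : ℕ | Nat.Partrec.Code.eval
    (Denumerable.ofNat Nat.Partrec.Code m) = Nat.Partrec.Code.eval
      (Denumerable.ofNat Nat.Partrec.Code n)}.Infinite := by
  refine Set.infinite_of_not_bddAbove ?_
  rintro ⟨N, hN⟩
  have key : ∀ k : ℕ, ∃ c : Nat.Partrec.Code, k ≤ Encodable.encode c ∧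
      Nat.Partrec.Code.eval c = Nat.Partrec.Code.eval (Denumerable.ofNat Nat.Partrec.Code n) := by
    intro k
    induction k with
    | zero => exact ⟨_, Nat.zero_le _, rfl⟩
    | succ k ih =>
      obtain ⟨c, h1, h2⟩ := ih
      refine ⟨Nat.Partrec.Code.comp Nat.Partrec.Code.id c, ?_, ?_⟩
      · exact Nat.succ_le_of_lt (lt_of_le_of_lt h1 (Nat.Partrec.Code.encode_lt_comp _ _).2)
      · rw [← h2]
        funext x
        have hid : Nat.Partrec.Code.id.eval = Part.some := by
          funext y
          exact Nat.Partrec.Code.eval_id y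
        rw [Nat.Partrec.Code.eval, hid]
        exact Part.bind_some_right _
  obtain ⟨c, h1, h2⟩ := key (N + 1)
  have h3 : Encodable.encode c ≤ N := hN (by
    show Nat.Partrec.Code.eval (Denumerable.ofNat Nat.Partrec.Code (Encodable.encode c)) = _
    rw [Denumerable.ofNat_encode, h2])
  omega

/-- A quantifier-free formula of the language of orders with two variables depends only on the
order relation between its two arguments. -/
theorem realize_iff {M : Type*} [PartialOrder M] [Language.order.Structure M]
    (hrel : ∀ (r : Language.order.Relations 2) (v : Fin 2 → M),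
      Language.Structure.RelMap r v ↔ v 0 ≤ v 1)
    {m : ℕ} {φ : Language.order.BoundedFormula (Fin 2) m} (hφ : φ.IsQF) (hm : m = 0)
    {v v' : Fin 2 → M} (xs xs' : Fin m → M) (h1 : v 0 ≤ v 1 ↔ v' 0 ≤ v' 1)
    (h2 : v 1 ≤ v 0 ↔ v' 1 ≤ v' 0) : φ.Realize v xs ↔ φ.Realize v' xs' := by
  subst hm
  have le_all : ∀ i j : Fin 2, v i ≤ v j ↔ v' i ≤ v' j := by
    intro i j
    fin_cases i <;> fin_cases j <;> simp [h1, h2]
  have eq_all : ∀ i j : Fin 2, v i = v j ↔ v' i = v' j := by
    intro i j
    rw [le_antisymm_iff, le_antisymm_iff, le_all i j, le_all j i]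
  have term : ∀ t : Language.order.Term (Fin 2 ⊕ Fin 0), ∃ i : Fin 2,
      (∀ (w : Fin 2 → M) (ys : Fin 0 → M), t.realize (Sum.elim w ys) = w i) := by
    intro t
    cases t with
    | var s =>
      rcases s with i | j
      · exact ⟨i, fun w ys => rfl⟩
      · exact j.elim0
    | func f ts => exact isEmptyElim f
  induction hφ with
  | falsum => exact Iff.rfl
  | of_isAtomic h =>
    cases h with
    | equal t₁ t₂ =>
      obtain ⟨i, hi⟩ := term t₁
      obtain ⟨j, hj⟩ := term t₂
      rw [Language.BoundedFormula.realize_bdEqual, Language.BoundedFormula.realize_bdEqual,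
        hi, hj, hi, hj]
      exact eq_all i j
    | rel R ts =>
      rename_i l
      rw [Language.BoundedFormula.realize_rel, Language.BoundedFormula.realize_rel]
      cases R
      obtain ⟨i, hi⟩ := term (ts 0)
      obtain ⟨j, hj⟩ := term (ts 1)
      rw [hrel, hrel, hi, hj, hi, hj]
      exact le_all i j
  | imp _ _ ih1 ih2 =>
    rw [Language.BoundedFormula.realize_imp, Language.BoundedFormula.realize_imp]
    exact imp_congr ih1 ih2

end Pool.Agent.QFree
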