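import Mathlib

/-!
# The greatest r.e. degree
-/

set_option autoImplicit false

namespace Pool.Agent.QFree

open Nat.Partrec (Code)

theorem turingReducible_of_pair {A K : Set ℕ} (p : ℕ) (h : ∀ x, x ∈ A ↔ Nat.pair p x ∈ K) :
    TuringReducible (fun x => Part.some (A.indicator (fun _ => (1 : ℕ)) x))
      (fun x => Part.some (K.indicator (fun _ => (1 : ℕ)) x)) := by
  refine RecursiveIn.iff_nat.2 ?_
  have h1 : Nat.RecursiveIn {(fun x => Part.some (K.indicator (fun _ => (1 : ℕ)) x) : ℕ →. ℕ)}
      (fun x => (Part.some (Nat.pair p x) : Part ℕ)) :=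
    Nat.Primrec.recursiveIn ((Nat.Primrec.const p).pair Nat.Primrec.id)
  have h2 := Nat.RecursiveIn.comp (Nat.RecursiveIn.oracle _ (Set.mem_singleton
    (fun x => Part.some (K.indicator (fun _ => (1 : ℕ)) x) : ℕ →. ℕ))) h1
  refine h2.of_eq fun x => ?_
  change (Part.some (Nat.pair p x)).bind _ = _
  rw [Part.bind_some]
  congr 1
  by_cases hx : x ∈ A
  · rw [Set.indicator_of_mem hx, Set.indicator_of_mem ((h x).1 hx)]
  · rw [Set.indicator_of_notMem hx, Set.indicator_of_notMem (fun k => hx ((h x).2 k))]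

/-- There is a greatest r.e. degree. -/
theorem exists_top {W : ℕ → Set ℕ}
    (hW : ∀ n, W n = {x | (Code.eval (Denumerable.ofNat Code n) x).Dom})
    {deg : Set ℕ → TuringDegree} (hdeg : ∀ A : Set ℕ, deg A = toAntisymmetrization TuringReducible
      (fun x => Part.some (A.indicator (fun _ => (1 : ℕ)) x))) :
    ∃ k, ∀ n, deg (W n) ≤ deg (W k) := by
  have hp : Nat.Partrec fun z => Code.eval (Denumerable.ofNat Code z.unpair.1) z.unpair.2 :=
    Partrec.nat_iff.1 (Code.eval_part.comp
      ((Computable.ofNat Code).comp (Computable.fst.comp Computable.unpair))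
      (Computable.snd.comp Computable.unpair))
  obtain ⟨c, hc⟩ := Code.exists_code.1 hp
  refine ⟨Encodable.encode c, fun n => ?_⟩
  rw [hdeg, hdeg]
  refine turingReducible_of_pair n fun x => ?_
  rw [hW, hW, Denumerable.ofNat_encode, hc]
  simp only [Set.mem_ofPred_eq, Nat.unpair_pair]

end Pool.Agent.QFree
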