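import Pool.Agent.QFree.Comb

/-!
# Two classes

A relation on a partial order with a greatest element which is the graph of a partial function and
takes every value infinitely often does not depend only on the order relation of its two arguments
and on the classes of the arguments with respect to a partition into two classes.
-/

set_option autoImplicit false

namespace Pool.Agent.QFree

theorem not_two {α : Type*} [PartialOrder α] {t : α} (ht : ∀ x, x ≤ t) {C : α → Prop} (hCt : C t)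
    {T : α → α → Prop} (hfun : ∀ a b b', T a b → T a b' → b = b')
    (hinf : ∀ b, {a | T a b}.Infinite)
    (hlt : ∀ a b a' b', a < b → a' < b' → (C a ↔ C a') → (C b ↔ C b') → T a b → T a' b')
    (hgt : ∀ a b a' b', b < a → b' < a' → (C a ↔ C a') → (C b ↔ C b') → T a b → T a' b')
    (hin : ∀ a b a' b', ¬ a ≤ b → ¬ b ≤ a → ¬ a' ≤ b' → ¬ b' ≤ a' →
      (C a ↔ C a') → (C b ↔ C b') → T a b → T a' b') : False := by
  have single : ∀ Q : Set α, Q.Nonempty → (∀ x ∈ Q, ∀ y ∈ Q, (C x ↔ C y)) →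
      (∀ b ∈ Q, {a | a ∈ Q ∧ T a b}.Infinite) → False := by
    intro Q hQ hcl hI
    have : Nonempty Q := hQ.to_subtype
    refine not_tame (α := Q) (F := ∅) Set.finite_empty (T := fun a b => T a.1 b.1) ?_ ?_
      ⟨?_, ?_, ?_⟩
    · intro a b b' h h'
      exact Subtype.ext (hfun _ _ _ h h')
    · intro b
      refine Set.Infinite.of_image Subtype.val ?_
      refine (hI b.1 b.2).mono ?_
      rintro a ⟨haQ, hab⟩
      exact ⟨⟨a, haQ⟩, hab, rfl⟩
    · intro a b a' b' _ _ _ _ h h' hT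
      exact hlt a b a' b' h h' (hcl _ a.2 _ a'.2) (hcl _ b.2 _ b'.2) hT
    · intro a b a' b' _ _ _ _ h h' hT
      exact hgt a b a' b' h h' (hcl _ a.2 _ a'.2) (hcl _ b.2 _ b'.2) hT
    · intro a b _ _ h h' hT
      exact hin a b b a h h' h' h (hcl _ a.2 _ b.2) (hcl _ b.2 _ a.2) hT
  have hlow : ∀ a b, C b → b ≠ t → a < b → ¬ T a b := by
    intro a b hb hbt hab hT
    have := hlt a b a t hab (hab.trans_le (ht b)) Iff.rfl (iff_of_true hb hCt) hT
    exact hbt (hfun a b t hT this)
  have hne : ∀ a b, ¬ C a → C b → a ≠ b := by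
    rintro a b h1 h2 rfl
    exact h1 h2
  by_cases hC2 : ∃ c1 c2, C c1 ∧ C c2 ∧ c1 ≠ t ∧ c2 ≠ t ∧ c1 ≠ c2
  · have hD : ∀ b, C b → b ≠ t → {a | ¬ C a ∧ T a b}.Infinite := by
      intro b hb hbt
      have hsub : {a | C a ∧ ¬ a ≤ b ∧ ¬ b ≤ a ∧ T a b}.Subsingleton := by
        rintro a ⟨ha, h1, h2, h3⟩ a' ⟨ha', h1', h2', h3'⟩
        exact hfun b a a'
          (hin a b b a h1 h2 h2 h1 (iff_of_true ha hb) (iff_of_true hb ha) h3)
          (hin a' b b a' h1' h2' h2' h1' (iff_of_true ha' hb) (iff_of_true hb ha') h3')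
      have hgtC : ∀ a, C a → b < a → ¬ T a b := by
        intro a ha hba hT
        obtain ⟨c1, c2, h1, h2, h3, h4, h5⟩ := hC2
        have k : ∀ c, C c → c ≠ t → T t c := fun c hc hct =>
          hgt a b t c hba (lt_of_le_of_ne (ht c) hct) (iff_of_true ha hCt) (iff_of_true hb hc) hT
        exact h5 (hfun t c1 c2 (k c1 h1 h3) (k c2 h2 h4))
      refine ((hinf b).sdiff ((Set.finite_singleton b).union hsub.finite)).mono ?_
      rintro a ⟨hT, hn⟩
      refine ⟨fun ha => hn ?_, hT⟩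
      by_cases e : a = b
      · exact Or.inl e
      · right
        exact ⟨ha, fun h => hlow a b hb hbt (lt_of_le_of_ne h e) hT,
          fun h => hgtC a ha (lt_of_le_of_ne h (Ne.symm e)) hT, hT⟩
    have hCDgt : ∀ a b, C a → ¬ C b → b < a → ¬ T a b := by
      intro a b ha hb hba hT
      obtain ⟨c1, _, h1, _, h3, _⟩ := hC2
      refine hD c1 h1 h3 (Set.Subsingleton.finite ?_)
      have k : ∀ d, ¬ C d → T t d := fun d hd =>
        hgt a b t d hba (lt_of_le_of_ne (ht d) (hne d t hd hCt)) (iff_of_true ha hCt)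
          (iff_of_false hb hd) hT
      rintro x ⟨hx, _⟩ y ⟨hy, _⟩
      exact hfun t x y (k x hx) (k y hy)
    have hcov : ∀ a b, ¬ C a → C b → b ≠ t → T a b → b < a ∨ (¬ a ≤ b ∧ ¬ b ≤ a) := by
      intro a b ha hb hbt hT
      have e := hne a b ha hb
      by_cases h : b ≤ a
      · exact Or.inl (lt_of_le_of_ne h (Ne.symm e))
      · exact Or.inr ⟨fun h' => hlow a b hb hbt (lt_of_le_of_ne h' e) hT, h⟩
    by_cases hP1 : ∃ a b, ¬ C a ∧ C b ∧ b ≠ t ∧ b < a ∧ T a b
    · obtain ⟨a0, b0, ha0, hb0, hb0t, hba0, hT0⟩ := hP1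
      have G : ∀ a b, ¬ C a → C b → b < a → T a b := fun a b ha hb h =>
        hgt a0 b0 a b hba0 h (iff_of_false ha0 ha) (iff_of_true hb0 hb) hT0
      have P2 : ∀ a b, ¬ C a → C b → ¬ a ≤ b → ¬ b ≤ a → ¬ T a b := by
        intro a1 b1 ha1 hb1 h1 h2 hT1
        have N : ∀ a b, ¬ C a → C b → ¬ a ≤ b → ¬ b ≤ a → T a b := fun a b ha hb h h' =>
          hin a1 b1 a b h1 h2 h h' (iff_of_false ha1 ha) (iff_of_true hb1 hb) hT1
        obtain ⟨b', hb', hb't, hbb⟩ : ∃ b', C b' ∧ b' ≠ t ∧ b' ≠ b0 := by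
          obtain ⟨c1, c2, k1, k2, k3, k4, k5⟩ := hC2
          by_cases e : c1 = b0
          · exact ⟨c2, k2, k4, fun h => k5 (e.trans h.symm)⟩
          · exact ⟨c1, k1, k3, e⟩
        obtain ⟨a', ha', hTa'⟩ := (hD b' hb' hb't).nonempty
        have low : ∀ a b c, ¬ C a → C c → T a b → b ≠ c → a < c := by
          intro a b c ha hc hT hbc
          have e := hne a c ha hc
          by_cases h : a ≤ c
          · exact lt_of_le_of_ne h e
          · exfalso
            by_cases h' : c ≤ a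
            · exact hbc (hfun a b c hT (G a c ha hc (lt_of_le_of_ne h' (Ne.symm e))))
            · exact hbc (hfun a b c hT (N a c ha hc h h'))
        have l1 := low a0 b0 b' ha0 hb' hT0 (Ne.symm hbb)
        have l2 := low a' b' b0 ha' hb0 hTa' hbb
        exact hlow a' b' hb' hb't (l2.trans (hba0.trans l1)) hTa'
      have hup : ∀ b, C b → b ≠ t → {a | ¬ C a ∧ b < a}.Infinite := by
        intro b hb hbt
        refine (hD b hb hbt).mono ?_
        rintro a ⟨ha, hT⟩
        rcases hcov a b ha hb hbt hT with h | h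
        · exact ⟨ha, h⟩
        · exact absurd hT (P2 a b ha hb h.1 h.2)
      have off : ∀ a b, C a → ¬ C b → a < b → ¬ T a b := by
        intro a b ha hb hab hT
        obtain ⟨c1, _, h1, _, h3, _⟩ := hC2
        refine hup c1 h1 h3 (Set.Subsingleton.finite ?_)
        have k : ∀ d, ¬ C d → c1 < d → T c1 d := fun d hd h =>
          hlt a b c1 d hab h (iff_of_true ha h1) (iff_of_false hb hd) hT
        rintro x ⟨hx, hx'⟩ y ⟨hy, hy'⟩
        exact hfun c1 x y (k x hx hx') (k y hy hy')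
      have on : ∃ a b, C a ∧ ¬ C b ∧ ¬ a ≤ b ∧ ¬ b ≤ a ∧ T a b := by
        by_contra hcon
        obtain ⟨c1, _, h1, _, h3, _⟩ := hC2
        refine single {x | ¬ C x} ?_ ?_ ?_
        · obtain ⟨a, ha, _⟩ := (hD c1 h1 h3).nonempty
          exact ⟨a, ha⟩
        · intro x hx y hy
          exact iff_of_false hx hy
        · intro b hb
          refine (hinf b).mono ?_
          intro a hT
          refine ⟨fun ha => ?_, hT⟩
          have e : a ≠ b := Ne.symm (hne b a hb ha)
          by_cases h : a ≤ b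
          · exact off a b ha hb (lt_of_le_of_ne h e) hT
          · by_cases h' : b ≤ a
            · exact hCDgt a b ha hb (lt_of_le_of_ne h' (Ne.symm e)) hT
            · exact hcon ⟨a, b, ha, hb, h, h', hT⟩
      obtain ⟨a2, b2, ha2, hb2, n1, n2, hT2⟩ := on
      have M : ∀ a b, C a → ¬ C b → ¬ a ≤ b → ¬ b ≤ a → T a b := fun a b ha hb h h' =>
        hin a2 b2 a b n1 n2 h h' (iff_of_true ha2 ha) (iff_of_false hb2 hb) hT2
      have less : ∀ b b', C b → b ≠ t → C b' → b ≠ b' → b < b' := by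
        intro b b' hb hbt hb' hbb
        have hs : {a | ¬ C a ∧ ¬ b' ≤ a ∧ ¬ a ≤ b'}.Subsingleton := by
          rintro x ⟨hx, hx1, hx2⟩ y ⟨hy, hy1, hy2⟩
          exact hfun b' x y (M b' x hb' hx hx1 hx2) (M b' y hb' hy hy1 hy2)
        obtain ⟨a, ⟨ha, hba⟩, hn⟩ := ((hup b hb hbt).sdiff hs.finite).nonempty
        have h1 : ¬ b' ≤ a := fun h => hbb (hfun a b b' (G a b ha hb hba)
          (G a b' ha hb' (lt_of_le_of_ne h (Ne.symm (hne a b' ha hb')))))
        have h2 : a ≤ b' := by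
          by_contra h
          exact hn ⟨ha, h1, h⟩
        exact hba.trans_le h2
      obtain ⟨c1, c2, k1, k2, k3, k4, k5⟩ := hC2
      exact lt_asymm (less c1 c2 k1 k3 k2 k5) (less c2 c1 k2 k4 k1 (Ne.symm k5))
    · obtain ⟨c1, _, h1, _, h3, _⟩ := hC2
      have hcov2 : ∀ a b, ¬ C a → C b → b ≠ t → T a b → ¬ a ≤ b ∧ ¬ b ≤ a := by
        intro a b ha hb hbt hT
        rcases hcov a b ha hb hbt hT with h | h
        · exact absurd ⟨a, b, ha, hb, hbt, h, hT⟩ hP1
        · exact h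
      have hside : ∀ b, C b → b ≠ t → {a | ¬ C a ∧ ¬ b ≤ a ∧ ¬ a ≤ b}.Infinite := by
        intro b hb hbt
        refine (hD b hb hbt).mono ?_
        rintro a ⟨ha, hT⟩
        have h := hcov2 a b ha hb hbt hT
        exact ⟨ha, h.2, h.1⟩
      obtain ⟨a1, ha1, hTa1⟩ := (hD c1 h1 h3).nonempty
      have hi1 := hcov2 a1 c1 ha1 h1 h3 hTa1
      have N : ∀ a b, ¬ C a → C b → ¬ a ≤ b → ¬ b ≤ a → T a b := fun a b ha hb h h' =>
        hin a1 c1 a b hi1.1 hi1.2 h h' (iff_of_false ha1 ha) (iff_of_true h1 hb) hTa1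
      have off : ∀ a b, C a → ¬ C b → ¬ a ≤ b → ¬ b ≤ a → ¬ T a b := by
        intro a b ha hb h h' hT
        refine hside c1 h1 h3 (Set.Subsingleton.finite ?_)
        rintro x ⟨hx, hx1, hx2⟩ y ⟨hy, hy1, hy2⟩
        exact hfun c1 x y
          (hin a b c1 x h h' hx1 hx2 (iff_of_true ha h1) (iff_of_false hb hx) hT)
          (hin a b c1 y h h' hy1 hy2 (iff_of_true ha h1) (iff_of_false hb hy) hT)
      have hcovD : ∀ a b, C a → ¬ C b → T a b → a < b := by
        intro a b ha hb hT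
        have e : a ≠ b := Ne.symm (hne b a hb ha)
        by_cases h : a ≤ b
        · exact lt_of_le_of_ne h e
        · exfalso
          by_cases h' : b ≤ a
          · exact hCDgt a b ha hb (lt_of_le_of_ne h' (Ne.symm e)) hT
          · exact off a b ha hb h h' hT
      have two : ∃ d d', ¬ C d ∧ ¬ C d' ∧ d ≠ d' ∧ {a | C a ∧ T a d}.Infinite ∧
          {a | C a ∧ T a d'}.Infinite := by
        by_contra hcon
        obtain ⟨d0, hd0⟩ : ∃ d0, ∀ d, ¬ C d → d ≠ d0 → {a | C a ∧ T a d}.Finite := by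
          by_cases h : ∃ d, ¬ C d ∧ {a | C a ∧ T a d}.Infinite
          · obtain ⟨d, hd, hdi⟩ := h
            refine ⟨d, fun d' hd' hn => ?_⟩
            by_contra hi
            exact hcon ⟨d, d', hd, hd', Ne.symm hn, hdi, hi⟩
          · refine ⟨t, fun d hd _ => ?_⟩
            by_contra hi
            exact h ⟨d, hd, hi⟩
        refine single {x | ¬ C x ∧ x ≠ d0} ?_ ?_ ?_
        · obtain ⟨a, ⟨ha, _⟩, hn⟩ := ((hD c1 h1 h3).sdiff (Set.finite_singleton d0)).nonempty
          exact ⟨a, ha, hn⟩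
        · intro x hx y hy
          exact iff_of_false hx.1 hy.1
        · intro b hb
          refine ((hinf b).sdiff ((hd0 b hb.1 hb.2).union (Set.finite_singleton d0))).mono ?_
          rintro a ⟨hT, hn⟩
          exact ⟨⟨fun ha => hn (Or.inl ⟨ha, hT⟩), fun h => hn (Or.inr h)⟩, hT⟩
      obtain ⟨d, d', hd, hd', hdd, hi, hi'⟩ := two
      have less : ∀ d d', ¬ C d → ¬ C d' → d ≠ d' → {a | C a ∧ T a d}.Infinite → d' < d := by
        intro d d' hd hd' hdd hi
        have hs : {a | C a ∧ ¬ d' ≤ a ∧ ¬ a ≤ d'}.Subsingleton := by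
          rintro x ⟨hx, hx1, hx2⟩ y ⟨hy, hy1, hy2⟩
          exact hfun d' x y (N d' x hd' hx hx1 hx2) (N d' y hd' hy hy1 hy2)
        obtain ⟨a, ⟨ha, hT⟩, hn⟩ := (hi.sdiff hs.finite).nonempty
        have had := hcovD a d ha hd hT
        have h1 : ¬ a ≤ d' := fun h => hdd (hfun a d d' hT
          (hlt a d a d' had (lt_of_le_of_ne h (Ne.symm (hne d' a hd' ha))) Iff.rfl
            (iff_of_false hd hd') hT))
        have h2 : d' ≤ a := by
          by_contra h
          exact hn ⟨ha, h, h1⟩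
        exact lt_of_le_of_lt h2 had
      exact lt_asymm (less d d' hd hd' hdd hi) (less d' d hd' hd (Ne.symm hdd) hi')
  · have hs : {x | C x ∧ x ≠ t}.Subsingleton := by
      rintro x ⟨hx, hx'⟩ y ⟨hy, hy'⟩
      by_contra h
      exact hC2 ⟨x, y, hx, hy, hx', hy', h⟩
    have hCf : {x | C x}.Finite := by
      refine (hs.finite.union (Set.finite_singleton t)).subset ?_
      intro x hx
      by_cases e : x = t
      · exact Or.inr e
      · exact Or.inl ⟨hx, e⟩
    refine single {x | ¬ C x} ?_ ?_ ?_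
    · obtain ⟨a, -, ha⟩ := ((hinf t).sdiff hCf).nonempty
      exact ⟨a, ha⟩
    · intro x hx y hy
      exact iff_of_false hx hy
    · intro b _
      refine ((hinf b).sdiff hCf).mono ?_
      rintro a ⟨hT, ha⟩
      exact ⟨ha, hT⟩

end Pool.Agent.QFree
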